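import Pool.Agent.Helper51.PP.Spec

/-! MP_b460e8_pr, part MG: measurability of the gaps and of the induced maps. -/

namespace Pool.Agent.Helper12.PC.MG
open Pool.Agent.Helper51.PP MeasureTheory Set

lemma sInf_eq_iff {S : Set ℕ} (h0 : 0 ∉ S) (k : ℕ) :
    sInf S = k ↔ (k = 0 ∧ ∀ j, j ∉ S) ∨ (k ∈ S ∧ ∀ j < k, j ∉ S) := by
  constructor
  · rintro rfl
    rcases Set.eq_empty_or_nonempty S with h | h
    · left
      subst h
      exact ⟨Nat.sInf_empty, fun j => by simp⟩
    · right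
      exact ⟨Nat.sInf_mem h, fun j hj => Nat.notMem_of_lt_sInf hj⟩
  · rintro (⟨rfl, h⟩ | ⟨hk, h⟩)
    · have : S = ∅ := Set.eq_empty_iff_forall_notMem.2 h
      rw [this, Nat.sInf_empty]
    · refine le_antisymm (Nat.sInf_le hk) ?_
      by_contra hcon
      push Not at hcon
      exact h _ hcon (Nat.sInf_mem ⟨k, hk⟩)

/-- the configurations with a point at distance `j ≥ 1` in direction `e` -/
def PS {d : ℕ} (e : Fin d × Bool) (j : ℕ) : Set (Conf d) :=
  {ω | 1 ≤ j ∧ ω (0 + (j : ℤ) • dirVec e) = true}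

lemma meas_PS {d : ℕ} (e : Fin d × Bool) (j : ℕ) : MeasurableSet (PS e j) := by
  by_cases hj : 1 ≤ j
  · have : PS e j = (fun ω : Conf d => ω (0 + (j : ℤ) • dirVec e)) ⁻¹' {true} := by
      ext ω
      simp [PS, hj]
    rw [this]
    exact measurable_pi_apply _ (measurableSet_singleton _)
  · have : PS e j = ∅ := by
      ext ω
      simp [PS, hj]
    rw [this]
    exact MeasurableSet.empty

lemma gap_eq_iff {d : ℕ} (ω : Conf d) (e : Fin d × Bool) (k : ℕ) :
    gap ω 0 e = k ↔ (k = 0 ∧ ∀ j, ω ∉ PS e j) ∨ (ω ∈ PS e k ∧ ∀ j < k, ω ∉ PS e j) := by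
  unfold gap
  rw [sInf_eq_iff (by simp)]
  rfl

lemma meas_gap {d : ℕ} (e : Fin d × Bool) : Measurable (fun ω : Conf d => gap ω 0 e) := by
  apply measurable_to_countable'
  intro k
  have heq : (fun ω : Conf d => gap ω 0 e) ⁻¹' {k} =
      ({ω | k = 0} ∩ ⋂ j, (PS e j)ᶜ) ∪ (PS e k ∩ ⋂ j : ℕ, ⋂ _ : j < k, (PS e j)ᶜ) := by
    ext ω
    simp only [mem_preimage, mem_singleton_iff, mem_union, mem_inter_iff, mem_iInter,
      mem_compl_iff, mem_ofPred_eq]
    exact gap_eq_iff ω e k
  rw [heq]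
  refine MeasurableSet.union (MeasurableSet.inter (MeasurableSet.const _)
    (MeasurableSet.iInter fun j => (meas_PS e j).compl)) ((meas_PS e k).inter
    (MeasurableSet.iInter fun j => MeasurableSet.iInter fun _ => (meas_PS e j).compl))

lemma meas_Tm {d : ℕ} (e : Fin d × Bool) : Measurable (fun ω : Conf d => Tm ω e) := by
  rw [measurable_pi_iff]
  intro y
  have h2 : Measurable (fun p : ℕ × Conf d => p.2 ((p.1 : ℤ) • dirVec e + y)) := by
    apply measurable_from_prod_countable_right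
    intro k
    show Measurable (fun ω : Conf d => ω ((k : ℤ) • dirVec e + y))
    exact measurable_pi_apply _
  exact h2.comp ((meas_gap e).prodMk measurable_id)

theorem main : S_MG := fun _ e => ⟨meas_gap e, meas_Tm e⟩

end Pool.Agent.Helper12.PC.MG
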