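import Pool.Agent.Helper12.PC.MG

/-! MP_b460e8_pr, part MP: the induced transformations preserve the conditioned measure. -/

namespace Pool.Agent.Helper12.PC.MP
open Pool.Agent.Helper51.PP Pool.Agent.Helper12.PC.MG MeasureTheory Set ProbabilityTheory

variable {d : ℕ}

lemma shift_shift (u v : Fin d → ℤ) (ω : Conf d) :
    shiftConf u (shiftConf v ω) = shiftConf (v + u) ω := by
  funext y
  simp [shiftConf, add_assoc]

lemma shift_zero (ω : Conf d) : shiftConf 0 ω = ω := by
  funext y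
  simp [shiftConf]

lemma meas_shift (v : Fin d → ℤ) : Measurable (shiftConf v : Conf d → Conf d) := by
  rw [measurable_pi_iff]
  intro y
  show Measurable (fun ω : Conf d => ω (v + y))
  exact measurable_pi_apply _

variable {Q : Measure (Conf d)}

lemma mp_neg (v : Fin d → ℤ) (h : MeasurePreserving (shiftConf v) Q Q) :
    MeasurePreserving (shiftConf (-v)) Q Q := by
  refine ⟨meas_shift _, ?_⟩
  conv_lhs => rw [← h.map_eq]
  rw [Measure.map_map (meas_shift _) (meas_shift _)]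
  have : (shiftConf (-v) ∘ shiftConf v : Conf d → Conf d) = id := by
    funext ω
    simp only [Function.comp_apply, shift_shift, add_neg_cancel, shift_zero, id_eq]
  rw [this, Measure.map_id]

lemma mp_dir (h : IsPointProcess d Q) (e : Fin d × Bool) :
    MeasurePreserving (shiftConf (dirVec e)) Q Q := by
  have h1 := (h.ergodic e.1).toMeasurePreserving
  unfold dirVec
  split_ifs with hb
  · exact h1
  · exact mp_neg _ h1

lemma mp_k (h : IsPointProcess d Q) (e : Fin d × Bool) (k : ℕ) :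
    MeasurePreserving (shiftConf ((k : ℤ) • dirVec e)) Q Q := by
  induction k with
  | zero =>
    have : (shiftConf (((0 : ℕ) : ℤ) • dirVec e) : Conf d → Conf d) = id := by
      funext ω
      simp [shift_zero]
    rw [this]
    exact MeasurePreserving.id _
  | succ k ih =>
    have : (shiftConf (((k + 1 : ℕ) : ℤ) • dirVec e) : Conf d → Conf d) =
        shiftConf (dirVec e) ∘ shiftConf ((k : ℤ) • dirVec e) := by
      funext ω
      rw [Function.comp_apply, shift_shift]
      congr 1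
      push_cast
      rw [add_smul, one_smul]
    rw [this]
    exact (mp_dir h e).comp ih

lemma dir_rev (e : Fin d × Bool) : dirVec (revD e) = -dirVec e := by
  obtain ⟨i, b⟩ := e
  cases b <;> simp [dirVec, revD]

/-- a step over a gap of length `k ≥ 1` -/
lemma step_iff (e : Fin d × Bool) {k : ℕ} (hk : 1 ≤ k) (ω : Conf d) :
    (ω ∈ Om0 d ∧ gap ω 0 e = k) ↔
      (shiftConf ((k : ℤ) • dirVec e) ω ∈ Om0 d ∧
        gap (shiftConf ((k : ℤ) • dirVec e) ω) 0 (revD e) = k) := by
  rw [gap_eq_iff, gap_eq_iff]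
  have hk0 : k ≠ 0 := by omega
  simp only [hk0, false_and, false_or]
  have e1 : ∀ (η : Conf d) (f : Fin d × Bool) (j : ℕ), η ∈ PS f j ↔
      (1 ≤ j ∧ η ((j : ℤ) • dirVec f) = true) := by
    intro η f j
    simp [PS]
  have e2 : ∀ η : Conf d, η ∈ Om0 d ↔ η 0 = true := fun η => Iff.rfl
  simp only [e1, e2, shiftConf, add_zero, dir_rev]
  have e3 : ∀ j : ℕ, ((k : ℤ) • dirVec e + (j : ℤ) • -dirVec e) = ((k : ℤ) - (j : ℤ)) • dirVec e := by
    intro j
    rw [sub_smul, smul_neg, ← sub_eq_add_neg]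
  simp only [e3, sub_self, zero_smul]
  constructor
  · rintro ⟨h0, ⟨-, hk1⟩, h⟩
    refine ⟨hk1, ⟨hk, h0⟩, fun j hj hcon => ?_⟩
    obtain ⟨hj1, hj2⟩ := hcon
    refine h (k - j) (by omega) ⟨by omega, ?_⟩
    have : (((k - j : ℕ) : ℤ)) = (k : ℤ) - j := by omega
    rw [this]
    exact hj2
  · rintro ⟨hk1, ⟨-, h0⟩, h⟩
    refine ⟨h0, ⟨hk, hk1⟩, fun j hj hcon => ?_⟩
    obtain ⟨hj1, hj2⟩ := hcon
    refine h (k - j) (by omega) ⟨by omega, ?_⟩
    have : (k : ℤ) - ((k - j : ℕ) : ℤ) = (j : ℤ) := by omega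
    rw [this]
    exact hj2

lemma meas_Om0 : MeasurableSet (Om0 d) := by
  have : Om0 d = (fun ω : Conf d => ω 0) ⁻¹' {true} := rfl
  rw [this]
  exact measurable_pi_apply _ (measurableSet_singleton _)

/-- decomposition of a set according to the value of a gap -/
lemma sum_gap (h : IsPointProcess d Q) (hG : ∀ᵐ ω ∂Q, Good ω) (e : Fin d × Bool)
    {A : Set (Conf d)} (hA : MeasurableSet A) :
    Q A = ∑' k : ℕ, Q (A ∩ {ω | gap ω 0 e = k + 1}) := by
  rw [← measure_iUnion]
  · apply measure_congr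
    rw [Filter.eventuallyEq_set]
    filter_upwards [hG] with ω hω
    constructor
    · intro hA
      have h1 : 1 ≤ gap ω 0 e :=
        (Nat.sInf_mem (s := {k : ℕ | 1 ≤ k ∧ ω (0 + (k : ℤ) • dirVec e) = true}) (hω 0 e)).1
      exact mem_iUnion.2 ⟨gap ω 0 e - 1, hA, by show gap ω 0 e = gap ω 0 e - 1 + 1; omega⟩
    · intro hA
      obtain ⟨k, hk⟩ := mem_iUnion.1 hA
      exact hk.1
  · intro i j hij
    refine Set.disjoint_left.2 fun ω h1 h2 => hij ?_
    have h3 : gap ω 0 e = i + 1 := h1.2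
    have h4 : gap ω 0 e = j + 1 := h2.2
    omega
  · intro k
    exact hA.inter ((meas_gap e) (measurableSet_singleton (k + 1)))

theorem main (hG : S_GOOD) : S_MP := by
  intro d Q h e
  have hGood := hG d Q h
  refine ⟨meas_Tm e, ?_⟩
  ext A hA
  rw [Measure.map_apply (meas_Tm e) hA, cond_apply meas_Om0, cond_apply meas_Om0]
  congr 1
  have hT : MeasurableSet ((fun ω : Conf d => Tm ω e) ⁻¹' A) := meas_Tm e hA
  rw [sum_gap h hGood e (meas_Om0.inter hT), sum_gap h hGood (revD e) (meas_Om0.inter hA)]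
  refine tsum_congr fun k => ?_
  have hC : MeasurableSet (Om0 d ∩ A ∩ {ω : Conf d | gap ω 0 (revD e) = k + 1}) :=
    (meas_Om0.inter hA).inter ((meas_gap (revD e)) (measurableSet_singleton (k + 1)))
  rw [← (mp_k h e (k + 1)).measure_preimage hC.nullMeasurableSet]
  congr 1
  ext ω
  simp only [mem_inter_iff, mem_preimage]
  constructor
  · rintro ⟨⟨h0, hA'⟩, hg⟩
    have hg' : gap ω 0 e = k + 1 := hg
    have h1 := (step_iff e (show 1 ≤ k + 1 by omega) ω).1 ⟨h0, hg'⟩
    have h2 : Tm ω e = shiftConf (((k + 1 : ℕ) : ℤ) • dirVec e) ω := by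
      unfold Tm
      rw [hg']
    refine ⟨⟨h1.1, ?_⟩, h1.2⟩
    rw [← h2]
    exact hA'
  · rintro ⟨⟨h0, hA'⟩, hg⟩
    have h1 := (step_iff e (show 1 ≤ k + 1 by omega) ω).2 ⟨h0, hg⟩
    have h2 : Tm ω e = shiftConf (((k + 1 : ℕ) : ℤ) • dirVec e) ω := by
      unfold Tm
      rw [h1.2]
    refine ⟨⟨h1.1, ?_⟩, h1.2⟩
    rw [h2]
    exact hA'

end Pool.Agent.Helper12.PC.MP
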